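import Mathlib

/-!
# Absolutely homogeneous edge-coloured graphs with a countable palette

An absolutely homogeneous edge-coloured complete graph with countably many colours is countable or
has at least continuum many vertices.
-/

set_option autoImplicit false

namespace Pool.Agent.Q323.GEC

open Cardinal Set

/-- `(V, κ)` is a graph with edge-colouring, with pseudocolour `e`. -/
def IsGEC {V C : Type} (e : C) (κ : V → V → C) : Prop :=
  (∀ x y, κ x y = κ y x) ∧ ∀ x y, κ x y = e ↔ x = y

/-- The colours of the pairs of distinct vertices. -/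
def palette {V C : Type} (κ : V → V → C) : Set C := {c | ∃ x y, x ≠ y ∧ κ x y = c}

/-- The map `f` defined on the set `A` preserves colours. -/
def IsPartialMorphism {V C : Type} (κ : V → V → C) (A : Set V) (f : A → V) : Prop :=
  ∀ x y : A, κ (f x) (f y) = κ x y

/-- Every partial morphism extends to an automorphism. -/
def AbsHom {V C : Type} (κ : V → V → C) : Prop :=
  ∀ (A : Set V) (f : A → V), IsPartialMorphism κ A f →
    ∃ g : V ≃ V, (∀ x y, κ (g x) (g y) = κ x y) ∧ ∀ a : A, g a = f a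

variable {V C : Type} {e : C} {κ : V → V → C}

/-- No infinite monochromatic set. -/
theorem no_infinite_mono (h1 : IsGEC e κ) (h2 : AbsHom κ) (c : C) (M : Set V)
    (hM : M.Pairwise (fun x y => κ x y = c)) : M.Finite := by
  by_contra hinf
  -- a maximal monochromatic set
  obtain ⟨M', hMM', hmax⟩ := zorn_subset_nonempty {S : Set V | S.Pairwise (fun x y => κ x y = c)}
    (by
      intro ch hch hchain _
      refine ⟨⋃₀ ch, ?_, fun s hs => subset_sUnion_of_mem hs⟩
      exact (pairwise_sUnion hchain.directedOn).2 (fun s hs => hch hs)) M hM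
  have hM'mono : M'.Pairwise (fun x y => κ x y = c) := hmax.prop
  have hM'inf : M'.Infinite := fun h => hinf (h.subset hMM')
  obtain ⟨m₀, hm₀⟩ := hM'inf.nonempty
  -- a bijection between `M' \ {m₀}` and `M'`
  have hcard : #(M' \ {m₀} : Set V) = #M' := by
    have h3 : Infinite (M' \ {m₀} : Set V) := (hM'inf.sdiff (finite_singleton m₀)).to_subtype
    have h4 : #(insert m₀ (M' \ {m₀}) : Set V) = #(M' \ {m₀} : Set V) + 1 :=
      Cardinal.mk_insert (fun h => h.2 rfl)
    rw [insert_sdiff_singleton, insert_eq_of_mem hm₀] at h4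
    rw [h4, Cardinal.add_one_eq (Cardinal.aleph0_le_mk _)]
  obtain ⟨φ⟩ := Cardinal.eq.1 hcard
  obtain ⟨g, hg1, hg2⟩ := h2 (M' \ {m₀}) (fun a => (φ a).1) (by
    intro x y
    by_cases hxy : x = y
    · subst hxy
      rw [(h1.2 _ _).2 rfl, (h1.2 _ _).2 rfl]
    · have hne : (φ x).1 ≠ (φ y).1 := fun h => hxy (φ.injective (Subtype.ext h))
      rw [hM'mono (φ x).2 (φ y).2 hne,
        hM'mono x.2.1 y.2.1 (fun h => hxy (Subtype.ext h))])
  have hsurj : ∀ y ∈ M', ∃ a ∈ M' \ {m₀}, g a = y := by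
    intro y hy
    exact ⟨(φ.symm ⟨y, hy⟩).1, (φ.symm ⟨y, hy⟩).2, by rw [hg2]; simp⟩
  have hnew : g m₀ ∉ M' := by
    intro h
    obtain ⟨a, ha, hag⟩ := hsurj _ h
    have := g.injective hag
    exact ha.2 this
  have hcol : ∀ y ∈ M', κ (g m₀) y = c := by
    intro y hy
    obtain ⟨a, ha, rfl⟩ := hsurj y hy
    rw [hg1]
    exact hM'mono hm₀ ha.1 (fun h => ha.2 h.symm)
  have hins : insert (g m₀) M' ∈ {S : Set V | S.Pairwise (fun x y => κ x y = c)} := by
    refine hM'mono.insert ?_
    intro b hb _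
    exact ⟨hcol b hb, by rw [h1.1]; exact hcol b hb⟩
  exact hnew (hmax.le_of_ge hins (subset_insert _ _) (mem_insert _ _))

/-- The same colours over `A`. -/
def Eqv (κ : V → V → C) (A : Set V) (x y : V) : Prop := ∀ a ∈ A, κ x a = κ y a

theorem Eqv.refl (κ : V → V → C) (A : Set V) (x : V) : Eqv κ A x x := fun _ _ => rfl

theorem Eqv.symm {A : Set V} {x y : V} (h : Eqv κ A x y) : Eqv κ A y x :=
  fun a ha => (h a ha).symm

theorem Eqv.trans {A : Set V} {x y z : V} (h : Eqv κ A x y) (h' : Eqv κ A y z) : Eqv κ A x z :=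
  fun a ha => (h a ha).trans (h' a ha)

theorem Eqv.mono {A A' : Set V} (hA : A ⊆ A') {x y : V} (h : Eqv κ A' x y) : Eqv κ A x y :=
  fun a ha => h a (hA ha)

/-- Points with the same colours over `A` are conjugate over `A`. -/
theorem Eqv.exists_aut (h1 : IsGEC e κ) (h2 : AbsHom κ) {A : Set V} {x y : V}
    (h : Eqv κ A x y) : ∃ g : V ≃ V, (∀ a b, κ (g a) (g b) = κ a b) ∧ (∀ a ∈ A, g a = a) ∧
      g x = y := by
  classical
  by_cases hx : x ∈ A
  · have : x = y := by
      have := h x hx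
      rw [(h1.2 _ _).2 rfl] at this
      exact ((h1.2 _ _).1 this.symm).symm
    exact ⟨Equiv.refl V, fun _ _ => rfl, fun _ _ => rfl, this⟩
  obtain ⟨g, hg1, hg2⟩ := h2 (insert x A) (fun a => if a.1 = x then y else a.1) (by
    rintro ⟨a, ha⟩ ⟨b, hb⟩
    simp only
    by_cases hax : a = x
    · by_cases hbx : b = x
      · subst hax; subst hbx
        simp only [if_true]
        rw [(h1.2 _ _).2 rfl, (h1.2 _ _).2 rfl]
      · subst hax
        rw [if_pos rfl, if_neg hbx]
        exact (h b (hb.resolve_left hbx)).symm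
    · by_cases hbx : b = x
      · subst hbx
        rw [if_pos rfl, if_neg hax, h1.1, h1.1 a]
        exact (h a (ha.resolve_left hax)).symm
      · rw [if_neg hax, if_neg hbx])
  refine ⟨g, hg1, ?_, ?_⟩
  · intro a ha
    have hax : a ≠ x := fun h => hx (h ▸ ha)
    rw [hg2 ⟨a, mem_insert_of_mem _ ha⟩]
    simp [hax]
  · rw [hg2 ⟨x, mem_insert _ _⟩]
    simp

/-- The colour types over a finite set are countable in number. -/
theorem exists_reps (hp : (palette κ).Countable) (h1 : IsGEC e κ) (F : Set V) (hF : F.Finite) :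
    ∃ R : Set V, R.Countable ∧ ∀ y, ∃ r ∈ R, Eqv κ F r y := by
  classical
  let P : Set C := insert e (palette κ)
  have hP : P.Countable := hp.insert _
  have := hP.to_subtype
  have := hF.to_subtype
  let t : V → (F → P) := fun y a => ⟨κ y a.1, by
    by_cases hya : y = a.1
    · exact Or.inl ((h1.2 _ _).2 hya)
    · exact Or.inr ⟨y, a.1, hya, rfl⟩⟩
  have hcount : Countable (F → P) := inferInstance
  have hsurj : ∀ z : range t, ∃ y, t y = z := fun z => z.2
  choose s hs using hsurj
  refine ⟨range s, countable_range s, fun y => ⟨s ⟨t y, y, rfl⟩, ⟨_, rfl⟩, ?_⟩⟩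
  intro a ha
  have := congrFun (hs ⟨t y, y, rfl⟩) ⟨a, ha⟩
  exact congrArg Subtype.val this

/-- A countable set which realizes all types over its finite subsets. -/
theorem exists_closed (hp : (palette κ).Countable) (h1 : IsGEC e κ) :
    ∃ B : Set V, B.Countable ∧ ∀ F ⊆ B, F.Finite → ∀ y, ∃ b ∈ B, Eqv κ F b y := by
  classical
  have hR : ∀ F : {F : Set V // F.Finite}, ∃ R : Set V, R.Countable ∧
      ∀ y, ∃ r ∈ R, Eqv κ F.1 r y := fun F => exists_reps hp h1 F.1 F.2
  choose R hRc hR using hR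
  let Φ : Set V → Set V := fun S => S ∪ ⋃ F ∈ {F : {F : Set V // F.Finite} | F.1 ⊆ S}, R F
  have hΦc : ∀ S, S.Countable → (Φ S).Countable := by
    intro S hS
    refine hS.union (Countable.biUnion ?_ (fun F _ => hRc F))
    have h2 := countable_ofPred_finite_subset hS
    have h3 : {F : {F : Set V // F.Finite} | F.1 ⊆ S} =
        Subtype.val ⁻¹' {t : Set V | t.Finite ∧ t ⊆ S} := by
      ext F
      exact ⟨fun h => ⟨F.2, h⟩, fun h => h.2⟩
    rw [h3]
    exact h2.preimage Subtype.val_injective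
  let B : ℕ → Set V := fun n => Φ^[n] ∅
  have hBs : ∀ n, B (n + 1) = Φ (B n) := fun n => Function.iterate_succ_apply' _ _ _
  have hBm : Monotone B := monotone_nat_of_le_succ (fun n => by
    rw [hBs]
    exact subset_union_left)
  have hBc : ∀ n, (B n).Countable := by
    intro n
    induction n with
    | zero => exact countable_empty
    | succ n ih => rw [hBs]; exact hΦc _ ih
  refine ⟨⋃ n, B n, countable_iUnion hBc, ?_⟩
  intro F hF hfin y
  obtain ⟨n, hn⟩ : ∃ n, F ⊆ B n := by
    obtain ⟨n, hn⟩ := (hBm.directed_le).exists_mem_subset_of_finset_subset_biUnion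
      (s := hfin.toFinset) (by rwa [Finite.coe_toFinset])
    exact ⟨n, by rwa [Finite.coe_toFinset] at hn⟩
  obtain ⟨r, hr, hry⟩ := hR ⟨F, hfin⟩ y
  refine ⟨r, mem_iUnion.2 ⟨n + 1, ?_⟩, hry⟩
  rw [hBs]
  exact Or.inr (mem_biUnion (show (⟨F, hfin⟩ : {F : Set V // F.Finite}) ∈ _ from hn) hr)

/-- Splitting. -/
theorem exists_split (h1 : IsGEC e κ) (h2 : AbsHom κ) {B : Set V}
    (hB : ∀ F ⊆ B, F.Finite → ∀ y, ∃ b ∈ B, Eqv κ F b y) {x : V} (hx : x ∉ B) (A : Finset V)
    (hA : (A : Set V) ⊆ B) : ∃ u v, u ∈ B ∧ v ∈ B ∧ Eqv κ A u x ∧ Eqv κ A v x ∧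
      κ x u ≠ κ x v := by
  classical
  by_contra hcon
  push Not at hcon
  -- the finite sets of good points
  have hstep : ∀ T : Finset V, (A ⊆ T ∧ (T : Set V) ⊆ B) → ∃ b ∈ B, b ∉ T ∧ Eqv κ T b x := by
    intro T hT
    obtain ⟨b, hb, hbx⟩ := hB T hT.2 T.finite_toSet x
    refine ⟨b, hb, ?_, hbx⟩
    intro hbT
    have h3 := hbx b hbT
    rw [(h1.2 _ _).2 rfl] at h3
    have : x = b := (h1.2 _ _).1 h3.symm
    exact hx (this ▸ hb)
  have : Nonempty V := ⟨x⟩
  choose! nx hnx1 hnx2 hnx3 using hstep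
  let T : ℕ → Finset V := fun n => (fun S => insert (nx S) S)^[n] A
  have hTs : ∀ n, T (n + 1) = insert (nx (T n)) (T n) := fun n =>
    Function.iterate_succ_apply' _ _ _
  have hTg : ∀ n, A ⊆ T n ∧ (T n : Set V) ⊆ B := by
    intro n
    induction n with
    | zero => exact ⟨subset_rfl, hA⟩
    | succ n ih =>
      rw [hTs]
      refine ⟨ih.1.trans (Finset.subset_insert _ _), ?_⟩
      rw [Finset.coe_insert]
      exact insert_subset (hnx1 _ ih) ih.2
  have hTm : Monotone T := monotone_nat_of_le_succ (fun n => by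
    rw [hTs]
    exact Finset.subset_insert _ _)
  let b : ℕ → V := fun n => nx (T n)
  have hbT : ∀ m n, m < n → b m ∈ T n := by
    intro m n hmn
    refine hTm (show m + 1 ≤ n from hmn) ?_
    rw [hTs]
    exact Finset.mem_insert_self _ _
  have hbB : ∀ n, b n ∈ B := fun n => hnx1 _ (hTg n)
  have hbA : ∀ n, Eqv κ A (b n) x := fun n =>
    (hnx3 _ (hTg n)).mono (by exact_mod_cast (hTg n).1)
  have hbinj : Function.Injective b := by
    have key : ∀ m n, m < n → b m ≠ b n := by
      intro m n hmn h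
      exact hnx2 _ (hTg n) (show b n ∈ T n from h ▸ hbT m n hmn)
    intro m n h
    rcases lt_trichotomy m n with h' | h' | h'
    · exact absurd h (key m n h')
    · exact h'
    · exact absurd h.symm (key n m h')
  have hcol : ∀ n, κ x (b n) = κ x (b 0) := fun n =>
    hcon (b n) (b 0) (hbB n) (hbB 0) (hbA n) (hbA 0)
  have hmono : (range b).Pairwise (fun y z => κ y z = κ x (b 0)) := by
    have key : ∀ m n, m < n → κ (b n) (b m) = κ x (b 0) := by
      intro m n hmn
      rw [hnx3 _ (hTg n) (b m) (hbT m n hmn), hcol]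
    rintro _ ⟨m, rfl⟩ _ ⟨n, rfl⟩ hne
    rcases lt_trichotomy m n with h' | h' | h'
    · rw [h1.1]
      exact key m n h'
    · exact absurd (congrArg b h') hne
    · exact key n m h'
  exact (infinite_range_of_injective hbinj) (no_infinite_mono h1 h2 _ _ hmono)

/-- **The dichotomy.** -/
theorem continuum_le (h1 : IsGEC e κ) (h2 : AbsHom κ) (hp : (palette κ).Countable)
    (hV : ¬ Countable V) : 𝔠 ≤ #V := by
  classical
  obtain ⟨B, hBc, hB⟩ := exists_closed hp h1
  obtain ⟨x, hx⟩ : ∃ x, x ∉ B := by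
    by_contra hcon
    push Not at hcon
    refine hV (countable_univ_iff.1 (hBc.mono (fun y _ => hcon y)))
  have hsplit := fun A : {A : Finset V // (A : Set V) ⊆ B} => exists_split h1 h2 hB hx A.1 A.2
  choose u v hu hv hux hvx huv using hsplit
  let nxt : {A : Finset V // (A : Set V) ⊆ B} → {A : Finset V // (A : Set V) ⊆ B} := fun A =>
    ⟨insert (u A) (insert (v A) A.1), by
      rw [Finset.coe_insert, Finset.coe_insert]
      exact insert_subset (hu A) (insert_subset (hv A) A.2)⟩
  let A : ℕ → {A : Finset V // (A : Set V) ⊆ B} := fun n => nxt^[n] ⟨∅, by simp⟩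
  have hAs : ∀ n, A (n + 1) = nxt (A n) := fun n => Function.iterate_succ_apply' _ _ _
  have hAm : ∀ n, ((A n).1 : Set V) ⊆ (A (n + 1)).1 := by
    intro n
    rw [hAs]
    intro a ha
    exact Finset.mem_insert_of_mem (Finset.mem_insert_of_mem ha)
  have hAmono : ∀ m n, m ≤ n → ((A m).1 : Set V) ⊆ (A n).1 := by
    intro m n hmn
    induction n, hmn using Nat.le_induction with
    | base => exact subset_rfl
    | succ n _ ih => exact ih.trans (hAm n)
  have haut : ∀ n, ∃ g : V ≃ V, (∀ a b, κ (g a) (g b) = κ a b) ∧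
      (∀ a ∈ ((A n).1 : Set V), g a = a) ∧ g (v (A n)) = u (A n) := fun n =>
    Eqv.exists_aut h1 h2 ((hvx (A n)).trans (hux (A n)).symm)
  choose h hh1 hh2 hh3 using haut
  -- the automorphisms along a branch
  let F : (ℕ → Bool) → ℕ → (V ≃ V) := fun σ n => Nat.rec (Equiv.refl V)
    (fun n f => if σ n then (h n).trans f else f) n
  have hF0 : ∀ σ, F σ 0 = Equiv.refl V := fun σ => rfl
  have hFs : ∀ σ n, F σ (n + 1) = if σ n then (h n).trans (F σ n) else F σ n := fun σ n => rfl
  have hFκ : ∀ σ n a b, κ (F σ n a) (F σ n b) = κ a b := by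
    intro σ n
    induction n with
    | zero => intro a b; rfl
    | succ n ih =>
      intro a b
      rw [hFs]
      split_ifs
      · simp only [Equiv.trans_apply]
        rw [ih, hh1]
      · exact ih a b
  have hFA1 : ∀ σ n, ∀ a ∈ ((A n).1 : Set V), F σ (n + 1) a = F σ n a := by
    intro σ n a ha
    rw [hFs]
    split_ifs
    · simp only [Equiv.trans_apply]
      rw [hh2 n a ha]
    · rfl
  have hFA : ∀ σ m n, m ≤ n → ∀ a ∈ ((A m).1 : Set V), F σ n a = F σ m a := by
    intro σ m n hmn a ha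
    induction n, hmn using Nat.le_induction with
    | base => rfl
    | succ n hmn ih => rw [hFA1 σ n a (hAmono m n hmn ha), ih]
  -- the limit
  let D : Set V := ⋃ n, ((A n).1 : Set V)
  have hD : ∀ a : D, ∃ n, a.1 ∈ ((A n).1 : Set V) := fun a => mem_iUnion.1 a.2
  choose idx hidx using hD
  have hlim : ∀ σ, ∃ g : V ≃ V, (∀ a b, κ (g a) (g b) = κ a b) ∧
      ∀ n, ∀ a ∈ ((A n).1 : Set V), g a = F σ n a := by
    intro σ
    obtain ⟨g, hg1, hg2⟩ := h2 D (fun a => F σ (idx a) a.1) (by
      intro a b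
      have ha : F σ (idx a) a.1 = F σ (max (idx a) (idx b)) a.1 :=
        (hFA σ _ _ (le_max_left _ _) _ (hidx a)).symm
      have hb : F σ (idx b) b.1 = F σ (max (idx a) (idx b)) b.1 :=
        (hFA σ _ _ (le_max_right _ _) _ (hidx b)).symm
      change κ (F σ (idx a) a.1) (F σ (idx b) b.1) = _
      rw [ha, hb, hFκ])
    refine ⟨g, hg1, ?_⟩
    intro n a ha
    have haD : a ∈ D := mem_iUnion.2 ⟨n, ha⟩
    rw [hg2 ⟨a, haD⟩]
    rcases le_total n (idx ⟨a, haD⟩) with hle | hle
    · exact hFA σ _ _ hle a ha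
    · exact (hFA σ _ _ hle a (hidx ⟨a, haD⟩)).symm
  choose g hg1 hg2 using hlim
  have hagree : ∀ σ τ : ℕ → Bool, ∀ n, (∀ m < n, σ m = τ m) → F σ n = F τ n := by
    intro σ τ n
    induction n with
    | zero => intro _; rfl
    | succ n ih =>
      intro hm
      rw [hFs, hFs, hm n (Nat.lt_succ_self n), ih (fun m hmn => hm m (hmn.trans
        (Nat.lt_succ_self n)))]
  have hdiff : ∀ σ τ : ℕ → Bool, ∀ n, (∀ m < n, σ m = τ m) → σ n = false → τ n = true →
      g σ x ≠ g τ x := by
    intro σ τ n hm hσ hτ heq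
    have hun : u (A n) ∈ ((A (n + 1)).1 : Set V) := by
      rw [hAs]
      exact Finset.mem_insert_self _ _
    have hvn : v (A n) ∈ ((A (n + 1)).1 : Set V) := by
      rw [hAs]
      exact Finset.mem_insert_of_mem (Finset.mem_insert_self _ _)
    have e1 : g σ (u (A n)) = F σ n (u (A n)) := by
      rw [hg2 σ (n + 1) _ hun, hFs, hσ]
      simp
    have e2 : g τ (v (A n)) = F τ n (u (A n)) := by
      rw [hg2 τ (n + 1) _ hvn, hFs, hτ]
      simp [hh3]
    have e3 : g σ (u (A n)) = g τ (v (A n)) := by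
      rw [e1, e2, hagree σ τ n hm]
    have e4 : κ x (u (A n)) = κ x (v (A n)) := by
      rw [← hg1 σ x, ← hg1 τ x, e3, heq]
    exact huv _ e4
  have hinj : Function.Injective (fun σ : ℕ → Bool => g σ x) := by
    intro σ τ hst
    by_contra hne
    have hex : ∃ n, σ n ≠ τ n := Function.ne_iff.1 hne
    have hmin : ∀ m < Nat.find hex, σ m = τ m := fun m hm => by
      by_contra h
      exact Nat.find_min hex hm h
    have hn := Nat.find_spec hex
    cases hσ : σ (Nat.find hex) <;> cases hτ : τ (Nat.find hex)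
    · exact hn (by rw [hσ, hτ])
    · exact hdiff σ τ _ hmin hσ hτ hst
    · exact hdiff τ σ _ (fun m hm => (hmin m hm).symm) hτ hσ hst.symm
    · exact hn (by rw [hσ, hτ])
  have := Cardinal.mk_le_of_injective hinj
  have hc : #(ℕ → Bool) = 𝔠 := by
    rw [← Cardinal.two_power_aleph0]
    simp
  rwa [hc] at this

end Pool.Agent.Q323.GEC
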